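import Pool.Agent.Work.MP_6f78fb_rk.Interface

/-!
# MP_6f78fb_co, block TENS: tensor products of spaces of functions (helper20)
-/

set_option linter.unusedSectionVars false

open scoped BigOperators TensorProduct
open Classical

noncomputable section

namespace Pool.RookLC.helper20

open Pool.RookLC Finset

namespace TENS

variable {A B : Type} [Fintype A] [Fintype B] (P : Submodule ℂ (A → ℂ))
  (Q : Submodule ℂ (B → ℂ))

/-- the product map -/
def bil : P →ₗ[ℂ] Q →ₗ[ℂ] (A × B → ℂ) :=
  LinearMap.mk₂ ℂ (fun (p : P) (q : Q) => fun ab : A × B => (p : A → ℂ) ab.1 * (q : B → ℂ) ab.2)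
    (by
      intro p p' q
      funext ab
      show ((p + p' : P) : A → ℂ) ab.1 * (q : B → ℂ) ab.2 =
        (p : A → ℂ) ab.1 * (q : B → ℂ) ab.2 + (p' : A → ℂ) ab.1 * (q : B → ℂ) ab.2
      rw [Submodule.coe_add, Pi.add_apply, add_mul])
    (by
      intro c p q
      funext ab
      show ((c • p : P) : A → ℂ) ab.1 * (q : B → ℂ) ab.2 =
        c * ((p : A → ℂ) ab.1 * (q : B → ℂ) ab.2)
      rw [Submodule.coe_smul, Pi.smul_apply, smul_eq_mul, mul_assoc])
    (by
      intro p q q'
      funext ab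
      show (p : A → ℂ) ab.1 * ((q + q' : Q) : B → ℂ) ab.2 =
        (p : A → ℂ) ab.1 * (q : B → ℂ) ab.2 + (p : A → ℂ) ab.1 * (q' : B → ℂ) ab.2
      rw [Submodule.coe_add, Pi.add_apply, mul_add])
    (by
      intro c p q
      funext ab
      show (p : A → ℂ) ab.1 * ((c • q : Q) : B → ℂ) ab.2 =
        c * ((p : A → ℂ) ab.1 * (q : B → ℂ) ab.2)
      rw [Submodule.coe_smul, Pi.smul_apply, smul_eq_mul, mul_left_comm])

/-- the map `e` -/
def e : (P ⊗[ℂ] Q) →ₗ[ℂ] (A × B → ℂ) := TensorProduct.lift (bil P Q)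

theorem e_tmul (p : P) (q : Q) (a : A) (b : B) :
    e P Q (p ⊗ₜ[ℂ] q) (a, b) = (p : A → ℂ) a * (q : B → ℂ) b := by
  unfold e
  rw [TensorProduct.lift.tmul]
  rfl

variable {P Q}

/-- every tensor is a sum over a basis of `P` -/
theorem rep {ι : Type} [Fintype ι] (v : Module.Basis ι ℂ P) (z : P ⊗[ℂ] Q) :
    ∃ q : ι → Q, z = ∑ i, v i ⊗ₜ[ℂ] q i := by
  induction z using TensorProduct.induction_on with
  | zero => exact ⟨0, by simp⟩
  | tmul x y =>
    refine ⟨fun i => v.repr x i • y, ?_⟩
    conv_lhs => rw [← v.sum_repr x]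
    rw [TensorProduct.sum_tmul]
    exact sum_congr rfl fun i _ => TensorProduct.smul_tmul _ _ _
  | add x y hx hy =>
    obtain ⟨q, hq⟩ := hx
    obtain ⟨q', hq'⟩ := hy
    refine ⟨fun i => q i + q' i, ?_⟩
    rw [hq, hq', ← sum_add_distrib]
    exact sum_congr rfl fun i _ => (TensorProduct.tmul_add _ _ _).symm

/-- functionals extending the coordinates -/
theorem fnl {ι : Type} [Fintype ι] (v : Module.Basis ι ℂ P) :
    ∃ φ : ι → (A → ℂ) →ₗ[ℂ] ℂ, ∀ i (x : P), φ i (x : A → ℂ) = v.repr x i := by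
  have h : ∀ i, ∃ g : (A → ℂ) →ₗ[ℂ] ℂ, g ∘ₗ P.subtype = v.coord i :=
    fun i => LinearMap.exists_extend (v.coord i)
  choose φ hφ using h
  refine ⟨φ, fun i x => ?_⟩
  have := LinearMap.congr_fun (hφ i) x
  exact this

/-- the function `e (∑ v i ⊗ q i)` -/
theorem e_sum {ι : Type} [Fintype ι] (v : ι → P) (q : ι → Q) (a : A) (b : B) :
    e P Q (∑ i, v i ⊗ₜ[ℂ] q i) (a, b) = ∑ i, (v i : A → ℂ) a * (q i : B → ℂ) b := by
  rw [map_sum, Finset.sum_apply]
  exact sum_congr rfl fun i _ => e_tmul P Q _ _ _ _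

end TENS

open TENS in
theorem stmt_TENS : Stmt_TENS := by
  intro A B _ _ P Q
  set v := Module.finBasis ℂ P with hv
  obtain ⟨φ, hφ⟩ := fnl v
  refine ⟨e P Q, ?_, e_tmul P Q, ?_⟩
  · rw [injective_iff_map_eq_zero]
    intro z hz
    obtain ⟨q, rfl⟩ := rep v z
    have h1 : ∀ i, q i = 0 := by
      intro i
      apply Subtype.ext
      funext b
      have h2 : (fun a => e P Q (∑ i, v i ⊗ₜ[ℂ] q i) (a, b)) =
          ((∑ j, (q j : B → ℂ) b • v j : P) : A → ℂ) := by
        funext a
        rw [e_sum, Submodule.coe_sum, Finset.sum_apply]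
        refine sum_congr rfl fun j _ => ?_
        rw [Submodule.coe_smul, Pi.smul_apply, smul_eq_mul, mul_comm]
      have h3 : φ i (fun a => e P Q (∑ i, v i ⊗ₜ[ℂ] q i) (a, b)) = 0 := by
        rw [hz]
        exact map_zero _
      rw [h2, hφ, map_sum] at h3
      simp only [map_smul, Module.Basis.repr_self] at h3
      rw [Finsupp.finsetSum_apply, sum_eq_single i] at h3
      · rw [Finsupp.smul_apply, Finsupp.single_eq_same, smul_eq_mul, mul_one] at h3
        exact h3
      · intro j _ hj
        rw [Finsupp.smul_apply, Finsupp.single_eq_of_ne (Ne.symm hj), smul_zero]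
      · intro h; exact absurd (mem_univ i) h
    simp [h1]
  · intro F
    constructor
    · rintro ⟨z, rfl⟩
      obtain ⟨q, rfl⟩ := rep v z
      constructor
      · intro b
        have h2 : (fun a => e P Q (∑ i, v i ⊗ₜ[ℂ] q i) (a, b)) =
            ((∑ j, (q j : B → ℂ) b • v j : P) : A → ℂ) := by
          funext a
          rw [e_sum, Submodule.coe_sum, Finset.sum_apply]
          refine sum_congr rfl fun j _ => ?_
          rw [Submodule.coe_smul, Pi.smul_apply, smul_eq_mul, mul_comm]
        rw [h2]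
        exact Subtype.property _
      · intro a
        have h2 : (fun b => e P Q (∑ i, v i ⊗ₜ[ℂ] q i) (a, b)) =
            ((∑ j, (v j : A → ℂ) a • q j : Q) : B → ℂ) := by
          funext b
          rw [e_sum, Submodule.coe_sum, Finset.sum_apply]
          refine sum_congr rfl fun j _ => ?_
          rw [Submodule.coe_smul, Pi.smul_apply, smul_eq_mul]
        rw [h2]
        exact Subtype.property _
    · rintro ⟨h1, h2⟩
      have h3 : ∀ i, (fun b => φ i (fun a => F (a, b))) ∈ Q := by
        intro i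
        have h4 : (fun b => φ i (fun a => F (a, b))) =
            ∑ a, φ i (Pi.single a 1) • (fun b => F (a, b)) := by
          funext b
          rw [Finset.sum_apply]
          have h5 : (fun a => F (a, b)) = ∑ a, F (a, b) • (Pi.single a (1 : ℂ) : A → ℂ) := by
            funext a'
            rw [Finset.sum_apply, sum_eq_single a']
            · simp
            · intro a'' _ hne
              simp [hne.symm]
            · intro h; exact absurd (mem_univ _) h
          rw [h5, map_sum]
          refine sum_congr rfl fun a _ => ?_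
          rw [map_smul, Pi.smul_apply, smul_eq_mul, smul_eq_mul, mul_comm]
        rw [h4]
        exact Q.sum_mem fun a _ => Q.smul_mem _ (h2 a)
      refine ⟨∑ i, v i ⊗ₜ[ℂ] (⟨_, h3 i⟩ : Q), ?_⟩
      funext ⟨a, b⟩
      rw [e_sum]
      have h6 := v.sum_repr (⟨_, h1 b⟩ : P)
      have h7 := congrFun (congrArg Subtype.val h6) a
      rw [Submodule.coe_sum, Finset.sum_apply] at h7
      show ∑ i, (v i : A → ℂ) a * φ i (fun a => F (a, b)) = F (a, b)
      have h8 : ((⟨_, h1 b⟩ : P) : A → ℂ) a = F (a, b) := rfl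
      refine Eq.trans ?_ h7
      refine sum_congr rfl fun i _ => ?_
      rw [Submodule.coe_smul, Pi.smul_apply, smul_eq_mul, mul_comm]
      congr 1
      exact hφ i ⟨_, h1 b⟩

end Pool.RookLC.helper20
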