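import Pool.Agent.Work.MP_6f78fb_rk.Interface

/-!
# MP_6f78fb_co, block PAIR: the norm identity (helper20)
-/

open scoped BigOperators TensorProduct
open Classical

noncomputable section

namespace Pool.RookLC.helper20

open Pool.RookLC Finset

namespace PAIR

variable {Ω K : Type} (S : FS Ω K)

theorem sg_apply (f : Ω → ℂ) (ω : Ω) : S.sg f ω = f (S.sw ω) := rfl

/-- `sg` is self-adjoint -/
theorem sg_adj [Fintype Ω] (f g : Ω → ℂ) : ∑ ω, S.sg f ω * (starRingEnd ℂ) (g ω) =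
    ∑ ω, f ω * (starRingEnd ℂ) (S.sg g ω) := by
  refine sum_nbij' S.sw S.sw ?_ ?_ ?_ ?_ ?_
  · intro a _; exact mem_univ _
  · intro a _; exact mem_univ _
  · intro a _; exact S.sw_sw a
  · intro a _; exact S.sw_sw a
  · intro a _
    rw [sg_apply, sg_apply, S.sw_sw]

/-- if `A = B`, `A' = - B'` and `⟨A', B'⟩ = conj ⟨A, B⟩` then `A = A' = 0` -/
theorem zero_of [Fintype Ω] (A B A' B' : Ω → ℂ) (h1 : A = B) (h2 : A' = - B')
    (h3 : ∑ ω, A' ω * (starRingEnd ℂ) (B' ω) =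
      (starRingEnd ℂ) (∑ ω, A ω * (starRingEnd ℂ) (B ω))) : A = 0 ∧ A' = 0 := by
  subst h1
  have e1 : ∑ ω, A ω * (starRingEnd ℂ) (A ω) = ((∑ ω, ‖A ω‖ ^ 2 : ℝ) : ℂ) := by
    push_cast
    exact sum_congr rfl fun ω _ => Complex.mul_conj' (A ω)
  have e2 : ∑ ω, A' ω * (starRingEnd ℂ) (B' ω) = ((- ∑ ω, ‖A' ω‖ ^ 2 : ℝ) : ℂ) := by
    push_cast
    rw [← sum_neg_distrib]
    refine sum_congr rfl fun ω _ => ?_
    have h4 : B' ω = - A' ω := by rw [h2]; simp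
    rw [h4, map_neg, mul_neg, Complex.mul_conj']
  rw [e1, e2, Complex.conj_ofReal] at h3
  have h5 : (- ∑ ω, ‖A' ω‖ ^ 2 : ℝ) = ∑ ω, ‖A ω‖ ^ 2 := by exact_mod_cast h3
  have h6 : 0 ≤ ∑ ω, ‖A' ω‖ ^ 2 := sum_nonneg fun ω _ => sq_nonneg _
  have h7 : 0 ≤ ∑ ω, ‖A ω‖ ^ 2 := sum_nonneg fun ω _ => sq_nonneg _
  have h8 : ∑ ω, ‖A' ω‖ ^ 2 = 0 := by linarith
  have h9 : ∑ ω, ‖A ω‖ ^ 2 = 0 := by linarith
  constructor
  · funext ω
    have := (sum_eq_zero_iff_of_nonneg fun ω _ => sq_nonneg ‖A ω‖).1 h9 ω (mem_univ _)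
    exact norm_eq_zero.1 (pow_eq_zero_iff (two_ne_zero)|>.1 this)
  · funext ω
    have := (sum_eq_zero_iff_of_nonneg fun ω _ => sq_nonneg ‖A' ω‖).1 h8 ω (mem_univ _)
    exact norm_eq_zero.1 (pow_eq_zero_iff (two_ne_zero)|>.1 this)

/-- the final step -/
theorem fin [Fintype Ω] (hFOPS : Stmt_FOPS) (h7 : S.CH7) (u : ℤ) (f : Ω → ℂ)
    (hf : ∀ ω, f ω ≠ 0 → S.Tot ω = (2, u)) (hX : S.Op (1, 0) f = 0) (hZ : S.Op (1, 1) f = 0) :
    f = 0 := by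
  obtain ⟨-, -, -, -, -, -, -, F8, F9⟩ := hFOPS Ω K S
  have k1 := F8 (1, 0) f (by decide)
  have k2 := F8 (1, 1) f (by decide)
  rw [hX] at k1
  rw [hZ] at k2
  simp only [Pi.zero_apply, norm_zero, ne_eq, OfNat.ofNat_ne_zero, not_false_eq_true, zero_pow,
    sum_const_zero] at k1 k2
  have n1 : 0 ≤ ∑ ω, ‖S.Op (-(1, 0)) f ω‖ ^ 2 := sum_nonneg fun ω _ => sq_nonneg _
  have n2 : 0 ≤ ∑ ω, ‖S.Op (-(1, 1)) f ω‖ ^ 2 := sum_nonneg fun ω _ => sq_nonneg _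
  have k3 : ∑ ω, (S.Hh (1, 0) ω : ℝ) * ‖f ω‖ ^ 2 + ∑ ω, (S.Hh (1, 1) ω : ℝ) * ‖f ω‖ ^ 2 =
      2 * ∑ ω, ‖f ω‖ ^ 2 := by
    rw [← sum_add_distrib, mul_sum]
    refine sum_congr rfl fun ω _ => ?_
    by_cases h : f ω = 0
    · rw [h]; simp
    · have h1 := hf ω h
      have h2 := F9 h7 ω
      rw [h1] at h2
      have h3 : (2 : ℤ) = S.Hh (1, 0) ω + S.Hh (1, 1) ω := congrArg Prod.fst h2
      have h4 : (S.Hh (1, 0) ω : ℝ) + (S.Hh (1, 1) ω : ℝ) = 2 := by exact_mod_cast h3.symm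
      rw [← add_mul, h4]
  have h8 : 0 ≤ ∑ ω, ‖f ω‖ ^ 2 := sum_nonneg fun ω _ => sq_nonneg _
  have h9 : ∑ ω, ‖f ω‖ ^ 2 = 0 := by linarith
  funext ω
  have := (sum_eq_zero_iff_of_nonneg fun ω _ => sq_nonneg ‖f ω‖).1 h9 ω (mem_univ _)
  exact norm_eq_zero.1 (pow_eq_zero_iff (two_ne_zero)|>.1 this)

end PAIR

open PAIR in
theorem stmt_PAIR (hFOPS : Stmt_FOPS) : Stmt_PAIR := by
  intro Ω K _ S h7 u f f' hf hf' e1 e2
  obtain ⟨F1, -, F3, F4, -, -, -, -, -⟩ := hFOPS Ω K S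
  have hX : (-(1, 1) : ℤ × ℤ) = (-1, -1) := rfl
  have g1 : S.Op (-1, -1) (S.sg f') = S.sg (S.Op (1, 1) f') := by rw [F4, hX]
  have g2 : S.Op (-1, -1) (S.sg f) = S.sg (S.Op (1, 1) f) := by rw [F4, hX]
  have key : S.Op (1, 0) f = 0 ∧ S.Op (1, 0) f' = 0 := by
    refine zero_of _ (S.Op (-1, -1) (S.sg f')) _ (S.Op (-1, -1) (S.sg f)) (sub_eq_zero.1 e1)
      (eq_neg_of_add_eq_zero_left e2) ?_
    have a1 : ∑ ω, S.Op (1, 0) f ω * (starRingEnd ℂ) (S.Op (-1, -1) (S.sg f') ω) =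
        ∑ ω, S.Op (1, 1) (S.Op (1, 0) f) ω * (starRingEnd ℂ) (S.sg f' ω) :=
      (F1 (1, 1) (S.Op (1, 0) f) (S.sg f')).symm
    have a2 : ∑ ω, S.Op (1, 0) f' ω * (starRingEnd ℂ) (S.Op (-1, -1) (S.sg f) ω) =
        ∑ ω, S.sg f' ω * (starRingEnd ℂ) (S.Op (1, 0) (S.Op (1, 1) f) ω) := by
      rw [F1, g2, sg_adj]
      refine sum_congr rfl fun ω _ => ?_
      rw [F4 (1, 0)]
    rw [a1, a2, map_sum, F3 (1, 0) (1, 1) f (by decide) (by decide) (by decide)]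
    refine sum_congr rfl fun ω _ => ?_
    rw [map_mul, Complex.conj_conj, mul_comm]
  have sg0 : ∀ g : Ω → ℂ, S.sg g = 0 → g = 0 := by
    intro g hg
    funext ω
    have := congrFun hg (S.sw ω)
    rw [sg_apply, S.sw_sw] at this
    exact this
  have z1 : S.Op (1, 1) f = 0 := by
    apply sg0
    rw [← g2]
    rw [key.2, zero_add] at e2
    exact e2
  have z2 : S.Op (1, 1) f' = 0 := by
    apply sg0
    rw [← g1]
    rw [key.1, zero_sub] at e1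
    exact neg_eq_zero.1 e1
  exact ⟨fin S hFOPS h7 u f hf key.1 z1, fin S hFOPS h7 (2 - u) f' hf' key.2 z2⟩

end Pool.RookLC.helper20
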